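import Mathlib
import Pool.Agent.Helper78.SM.Fin

set_option autoImplicit false
open MeasureTheory Real Set

namespace Pool.Agent.Results.MP_9ee088_an.FiniteTimeExponents

/-- Finite-time Lyapunov exponents of every standard map with large parameter: for most points
`(1 / n) log ‖DS_a ^ n‖` equals `log (π |a|)` up to `ε`, for all times `n` between a constant and
`c |a| ^ 2 / log |a|`. -/
theorem result :
    ∀ ε : ℝ, 0 < ε → ∃ (a₀ c : ℝ) (n₀ : ℕ), 0 < c ∧ ∀ a : ℝ, a₀ ≤ |a| →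
      ∀ n : ℕ, n₀ ≤ n → (n : ℝ) ≤ c * (|a| ^ 2 / Real.log |a|) →
      volume {p : ℝ × ℝ | p ∈ Ioc (0:ℝ) 1 ×ˢ Ioc (0:ℝ) 1 ∧
        ε < |Real.log
            ‖fderiv ℝ ((fun q : ℝ × ℝ => (2 * q.1 - q.2 + a * Real.sin (2 * π * q.1), q.1))^[n]) p‖
              / (n : ℝ) - Real.log (π * |a|)|} ≤ ENNReal.ofReal ε := by
  intro ε hε
  exact Pool.Agent.Helper78.SM.main ε hε

end Pool.Agent.Results.MP_9ee088_an.FiniteTimeExponents
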