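import Mathlib
import Pool.Agent.Helper78.SN.Main

set_option autoImplicit false
open MeasureTheory Real Set

namespace Pool.Agent.Results.MP_9ee088_an.RandomKicks

/-- Random perturbations of every standard map with large parameter by arbitrary independent kicks:
if among any `M` consecutive kicks one is spread at scale `r`, in the sense that it is within `r`
modulo one of any given point with probability at most `1 - p`, then the expected growth rate of the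
derivative equals `log (π |a|)`, up to an explicit error. -/
theorem result :
    ∃ C : ℝ, 0 < C ∧ ∀ δ : ℝ, 0 < δ → ∃ a₀ : ℝ, ∀ a : ℝ, a₀ ≤ |a| →
      ∀ p r : ℝ, 0 < p → p ≤ 1 → 0 < r → r ≤ 1 / 2 → ∀ M : ℕ, 1 ≤ M →
      ∀ ν : ℕ → Measure ℝ, (∀ i, IsProbabilityMeasure (ν i)) →
      (∀ k, ∃ j, k ≤ j ∧ j < k + M ∧
        ∀ x : ℝ, (ν j).real {t | ∃ m : ℤ, |t - x - m| ≤ r} ≤ 1 - p) → ∀ n : ℕ,
      n * (Real.log (π * |a|) - δ - C * Real.log |a| / p *
          ((Real.log (1 / r) + M * Real.log |a|) / |a| ^ 2 + 1 / |a| ^ ((1:ℝ) / 10))) ≤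
        ∫ ω : Fin n → ℝ, (∫ q in Ioc (0:ℝ) 1 ×ˢ Ioc (0:ℝ) 1, Real.log ‖fderiv ℝ (fun q : ℝ × ℝ =>
          Fin.foldl n (fun (z : ℝ × ℝ) i =>
            (2 * (z.1 + ω i) - z.2 + a * Real.sin (2 * π * (z.1 + ω i)), z.1 + ω i)) q) q‖)
          ∂(Measure.pi (fun i : Fin n => ν i)) ∧
      ∫ ω : Fin n → ℝ, (∫ q in Ioc (0:ℝ) 1 ×ˢ Ioc (0:ℝ) 1, Real.log ‖fderiv ℝ (fun q : ℝ × ℝ =>
          Fin.foldl n (fun (z : ℝ × ℝ) i =>
            (2 * (z.1 + ω i) - z.2 + a * Real.sin (2 * π * (z.1 + ω i)), z.1 + ω i)) q) q‖)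
          ∂(Measure.pi (fun i : Fin n => ν i)) ≤
        n * (Real.log (π * |a|) + δ) :=
  Pool.Agent.Helper78.SN.main_kicks

end Pool.Agent.Results.MP_9ee088_an.RandomKicks
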