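import Mathlib
import Pool.Agent.Helper78.SM.RandMain

set_option autoImplicit false
open MeasureTheory Real Set

namespace Pool.Agent.Results.MP_9ee088_an.RandomPerturbations

/-- Random perturbations of every standard map with large parameter: the expected growth rate of
the derivative equals `log (π |a|)` up to `δ`, for all noise levels `ε` down to
`exp (-c |a| ^ 2 / log |a|)`, with an explicit loss for smaller noise. -/
theorem result :
    ∃ C : ℝ, 0 < C ∧ ∀ δ : ℝ, 0 < δ → ∃ a₀ : ℝ, ∀ a : ℝ, a₀ ≤ |a| →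
      ∀ ε : ℝ, 0 < ε → ε ≤ 1 / 2 → ∀ n : ℕ,
      n * (Real.log (π * |a|) - δ - C * (Real.log |a| * Real.log (1 / ε) / |a| ^ 2)) ≤
        ∫ ω : Fin n → ℝ, (∫ p in Ioc (0:ℝ) 1 ×ˢ Ioc (0:ℝ) 1, Real.log ‖fderiv ℝ (fun p : ℝ × ℝ =>
          Fin.foldl n (fun (q : ℝ × ℝ) i =>
            (2 * (q.1 + ω i) - q.2 + a * Real.sin (2 * π * (q.1 + ω i)), q.1 + ω i)) p) p‖)
          ∂(Measure.pi (fun _ : Fin n => ProbabilityTheory.cond volume (Icc (-ε) ε))) ∧
      ∫ ω : Fin n → ℝ, (∫ p in Ioc (0:ℝ) 1 ×ˢ Ioc (0:ℝ) 1, Real.log ‖fderiv ℝ (fun p : ℝ × ℝ =>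
          Fin.foldl n (fun (q : ℝ × ℝ) i =>
            (2 * (q.1 + ω i) - q.2 + a * Real.sin (2 * π * (q.1 + ω i)), q.1 + ω i)) p) p‖)
          ∂(Measure.pi (fun _ : Fin n => ProbabilityTheory.cond volume (Icc (-ε) ε))) ≤
        n * (Real.log (π * |a|) + δ) :=
  Pool.Agent.Helper78.SM.main_rand

end Pool.Agent.Results.MP_9ee088_an.RandomPerturbations
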